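import Mathlib

set_option autoImplicit false
set_option linter.unusedSectionVars false

/-!
# Iterated group jumps need not be single group jumps (MP_9b97c3_lc)

For a group `G` and a relation `E` on `X`, the `G`-jump `E^[G]` is the relation on `G → X` with
`α E^[G] β` iff for some `g`, for all `h`, `α (g⁻¹ h) E β h`. The question is whether for all countable
groups `G`, `H` and every equivalence relation `E` on a Polish space there is a countable group `K`
such that `(E^[G])^[H]` and `E^[K]` are Borel bi-reducible. We show that this fails for all infinite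
countable groups `G`, `H` when `E` is the equality on any Polish space with at least two points: then
`(E^[G])^[H]` is not Borel reducible to any relation with countable classes, while `E^[K]` has
countable classes for every countable group `K`.

The proof is a Baire category argument. For `γ : H → G` and `x : H → G → Bool`, the points `x` and
`γ • x` are equivalent. If `f` is a Borel reduction to a relation with countable classes, then for every
`x` the map `γ ↦ f (γ • x)` is constant on a nonmeager set, hence on a comeager subset of a basic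
open set given by a finite set `F` of coordinates. For a generic `x` this forces `f` to be constant
on a comeager set of all points with given coordinates in `F`, but these are not equivalent.
-/

namespace Pool.Agent.Results.MP_9b97c3_lc.IteratedJump

open Set Filter Topology

universe u v w z

/-- The `G`-jump of the relation `E`. -/
def Jump (G : Type u) [Group G] {X : Type v} (E : X → X → Prop) (α β : G → X) : Prop :=
  ∃ g : G, ∀ h : G, E (α (g⁻¹ * h)) (β h)

/-- Borel reducibility of relations on topological spaces, with respect to the Borel sets. -/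
def BorelRed {X : Type u} {Y : Type v} [TopologicalSpace X] [TopologicalSpace Y]
    (E : X → X → Prop) (F : Y → Y → Prop) : Prop :=
  ∃ f : X → Y, @Measurable X Y (borel X) (borel Y) f ∧ ∀ x x' : X, E x x' ↔ F (f x) (f x')

/-! ### Category -/

section category

variable {A : Type u} {B : Type v} {X : Type w} [TopologicalSpace A] [TopologicalSpace B]
  [TopologicalSpace X]

/-- a map with local sections pulls back comeager sets to comeager sets -/
lemma residual_preimage (φ : A → X) (hφ : Continuous φ)
    (hs : ∀ a : A, ∃ s : X → A, ContinuousAt s (φ a) ∧ s (φ a) = a ∧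
      ∀ᶠ x in 𝓝 (φ a), φ (s x) = x) {C : Set X} (hC : C ∈ residual X) :
    φ ⁻¹' C ∈ residual A := by
  refine tendsto_residual_of_isOpenMap hφ ?_ hC
  rw [isOpenMap_iff_nhds_le]
  intro a
  obtain ⟨s, h1, h2, h3⟩ := hs a
  intro U hU
  rw [mem_map] at hU
  have h4 : s ⁻¹' (φ ⁻¹' U) ∈ 𝓝 (φ a) := by
    apply h1
    rw [h2]
    exact hU
  filter_upwards [h3, h4] with x hx hx'
  rw [mem_preimage, mem_preimage, hx] at hx'
  exact hx'

/-- the easy part of the theorem of Kuratowski and Ulam -/
lemma ku [SecondCountableTopology B] (φ : A × B → X) (hφ : Continuous φ)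
    (hs : ∀ a : A × B, ∃ s : X → A × B, ContinuousAt s (φ a) ∧ s (φ a) = a ∧
      ∀ᶠ x in 𝓝 (φ a), φ (s x) = x) {C : Set X} (hC : C ∈ residual X) :
    ∀ᶠ a in residual A, ∀ᶠ b in residual B, φ (a, b) ∈ C := by
  obtain ⟨S, hSo, hSd, hSc, hSC⟩ := mem_residual_iff.1 (residual_preimage φ hφ hs hC)
  have h1 : ∀ t ∈ S, ∀ᶠ a in residual A, ∀ᶠ b in residual B, (a, b) ∈ t := by
    intro t ht
    obtain ⟨𝓑, hBc, hBe, hB⟩ := TopologicalSpace.exists_countable_basis B
    have h2 : ∀ V ∈ 𝓑, ∀ᶠ a in residual A, ∃ b ∈ V, (a, b) ∈ t := by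
      intro V hV
      have hVo : IsOpen V := hB.isOpen hV
      have hVn : V.Nonempty := nonempty_iff_ne_empty.2 (fun h => hBe (h ▸ hV))
      have h3 : {a : A | ∃ b ∈ V, (a, b) ∈ t} = Prod.fst '' (t ∩ (univ ×ˢ V)) := by
        ext a
        constructor
        · rintro ⟨b, hb, hab⟩
          exact ⟨(a, b), ⟨hab, mem_univ _, hb⟩, rfl⟩
        · rintro ⟨⟨a', b⟩, ⟨hab, -, hb⟩, rfl⟩
          exact ⟨b, hb, hab⟩
      have h4 : IsOpen {a : A | ∃ b ∈ V, (a, b) ∈ t} := by
        rw [h3]
        exact isOpenMap_fst _ ((hSo t ht).inter (isOpen_univ.prod hVo))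
      have h5 : Dense {a : A | ∃ b ∈ V, (a, b) ∈ t} := by
        rw [dense_iff_inter_open]
        intro U hU hUn
        obtain ⟨⟨a, b⟩, ⟨ha, hb⟩, hab⟩ := (hSd t ht).inter_open_nonempty (U ×ˢ V)
          (hU.prod hVo) (hUn.prod hVn)
        exact ⟨a, ha, b, hb, hab⟩
      exact residual_of_dense_open h4 h5
    have h6 : ∀ᶠ a in residual A, ∀ V ∈ 𝓑, ∃ b ∈ V, (a, b) ∈ t :=
      (eventually_countable_ball hBc).2 h2
    filter_upwards [h6] with a ha
    refine residual_of_dense_open ((hSo t ht).preimage (by fun_prop : Continuous fun b => (a, b))) ?_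
    rw [hB.dense_iff]
    intro V hV hVn
    obtain ⟨b, hb, hab⟩ := ha V hV
    exact ⟨b, hb, hab⟩
  have h7 : ∀ᶠ a in residual A, ∀ t ∈ S, ∀ᶠ b in residual B, (a, b) ∈ t :=
    (eventually_countable_ball hSc).2 h1
  filter_upwards [h7] with a ha
  filter_upwards [(eventually_countable_ball hSc).2 ha] with b hb
  exact hSC (mem_sInter.2 hb)

end category

/-! ### Shifts -/

/-- the shift of a function on a group -/
def sh {K : Type u} [Group K] {X : Type v} (k : K) (y : K → X) : K → X := fun k' => y (k⁻¹ * k')

section main

variable {G : Type u} {H : Type v} [Group G] [Group H]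

/-- the shift of all coordinates -/
def act (γ : H → G) (x : H → G → Bool) : H → G → Bool := fun h => sh (γ h) (x h)

open Classical in
/-- `a` on `F` and `b` off `F` -/
noncomputable def mix {Z : Type w} (F : Finset H) (a b : H → Z) : H → Z :=
  fun h => if h ∈ F then a h else b h

lemma mix_mem {Z : Type w} {F : Finset H} {a b : H → Z} {h : H} (hh : h ∈ F) :
    mix F a b h = a h := by
  unfold mix
  exact if_pos hh

lemma mix_notMem {Z : Type w} {F : Finset H} {a b : H → Z} {h : H} (hh : h ∉ F) :
    mix F a b h = b h := by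
  unfold mix
  exact if_neg hh

lemma continuous_mix {Z : Type w} [TopologicalSpace Z] (F : Finset H) {Y : Type z}
    [TopologicalSpace Y] {a b : Y → H → Z} (ha : Continuous a) (hb : Continuous b) :
    Continuous fun y => mix F (a y) (b y) := by
  refine continuous_pi fun h => ?_
  by_cases hh : h ∈ F
  · simp only [mix_mem hh]
    exact (continuous_apply h).comp ha
  · simp only [mix_notMem hh]
    exact (continuous_apply h).comp hb

lemma act_inv (γ : H → G) (x : H → G → Bool) : act (fun h => (γ h)⁻¹) (act γ x) = x := by
  funext h g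
  simp [act, sh]

lemma act_inv' (γ : H → G) (x : H → G → Bool) : act γ (act (fun h => (γ h)⁻¹) x) = x := by
  funext h g
  simp [act, sh]

lemma continuous_act [TopologicalSpace G] [DiscreteTopology G] {Y : Type z} [TopologicalSpace Y]
    {a : Y → H → G} {b : Y → H → G → Bool} (ha : Continuous a) (hb : Continuous b) :
    Continuous fun y => act (a y) (b y) := by
  refine continuous_pi fun h => continuous_pi fun g' => ?_
  have h1 : Continuous fun p : G × (G → Bool) => p.2 (p.1⁻¹ * g') := by
    rw [continuous_prod_of_discrete_left]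
    intro g
    exact continuous_apply (g⁻¹ * g')
  exact h1.comp (((continuous_apply h).comp ha).prodMk ((continuous_apply h).comp hb))

/-- points without isolated points: the complement of a point is comeager -/
lemma ne_residual [Infinite G] (q : G → Bool) : ∀ᶠ y in residual (G → Bool), y ≠ q := by
  refine residual_of_dense_open isOpen_compl_singleton ?_
  rw [dense_iff_inter_open]
  intro U hU hUn
  obtain ⟨y, hy⟩ := hUn
  by_cases hyq : y = q
  · obtain ⟨I, u, hu, hIu⟩ := isOpen_pi_iff.1 hU y hy
    obtain ⟨g, hg⟩ := Infinite.exists_notMem_finset I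
    classical
    refine ⟨Function.update y g (!(y g)), hIu ?_, ?_⟩
    · intro a ha
      rw [Function.update_of_ne]
      · exact (hu a ha).2
      · rintro rfl
        exact hg ha
    · intro h
      have h1 : Function.update y g (!(y g)) g = q g := congrFun h g
      rw [Function.update_self, hyq] at h1
      cases hq : q g
      · rw [hq] at h1
        exact absurd h1 (by decide)
      · rw [hq] at h1
        exact absurd h1 (by decide)
  · exact ⟨y, hy, hyq⟩

/-- almost every point has a dense orbit -/
lemma dense_orbit [Countable G] [Infinite G] :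
    ∀ᶠ y in residual (G → Bool), ∀ V : Set (G → Bool), IsOpen V → V.Nonempty →
      ∃ g : G, sh g y ∈ V := by
  obtain ⟨𝓑, hBc, hBe, hB⟩ := TopologicalSpace.exists_countable_basis (G → Bool)
  have h2 : ∀ V ∈ 𝓑, ∀ᶠ y in residual (G → Bool), ∃ g : G, sh g y ∈ V := by
    intro V hV
    have hVo : IsOpen V := hB.isOpen hV
    obtain ⟨v, hv⟩ : V.Nonempty := nonempty_iff_ne_empty.2 (fun h => hBe (h ▸ hV))
    refine residual_of_dense_open ?_ ?_
    · have : {y : G → Bool | ∃ g : G, sh g y ∈ V} = ⋃ g : G, (fun y => sh g y) ⁻¹' V := by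
        ext y
        simp
      rw [this]
      refine isOpen_iUnion fun g => hVo.preimage ?_
      exact continuous_pi fun g' => continuous_apply _
    · rw [dense_iff_inter_open]
      intro U hU hUn
      obtain ⟨y, hy⟩ := hUn
      obtain ⟨I, u, hu, hIu⟩ := isOpen_pi_iff.1 hU y hy
      obtain ⟨J, w, hw, hJw⟩ := isOpen_pi_iff.1 hVo v hv
      classical
      obtain ⟨g, hg⟩ := Infinite.exists_notMem_finset
        ((J ×ˢ I).image fun p => p.1 * p.2⁻¹)
      -- the point which is `y` on `I` and `v (g ·)` off `I`
      have hgJ : ∀ j ∈ J, g⁻¹ * j ∉ I := by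
        intro j hj hji
        apply hg
        rw [Finset.mem_image]
        refine ⟨(j, g⁻¹ * j), Finset.mem_product.2 ⟨hj, hji⟩, ?_⟩
        simp
      refine ⟨fun a => if a ∈ I then y a else v (g * a), hIu ?_, g, hJw ?_⟩
      · intro a ha
        have ha' : a ∈ I := ha
        simp only [ha', if_true]
        exact (hu a ha').2
      · intro j hj
        have h3 := hgJ j hj
        simp only [sh, h3, if_false, mul_inv_cancel_left]
        exact (hw j hj).2
  have h6 := (eventually_countable_ball hBc).2 h2
  filter_upwards [h6] with y hy V hV hVn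
  obtain ⟨v, hv⟩ := hVn
  obtain ⟨W, hW, hvW, hWV⟩ := hB.exists_subset_of_mem_open hv hV
  obtain ⟨g, hg⟩ := hy W hW
  exact ⟨g, hWV hg⟩

theorem core [Countable G] [Infinite G] [Countable H] [Infinite H] {T : Type w}
    [TopologicalSpace T] [SecondCountableTopology T] [T1Space T]
    (f : (H → G → Bool) → T) (hf : @Measurable _ _ (borel _) (borel _) f)
    (Q : (H → G → Bool) → Set T) (hQ : ∀ x, (Q x).Countable)
    (h1 : ∀ x (γ : H → G), f (act γ x) ∈ Q x)
    (h2 : ∀ x y, f x = f y → Jump H (Jump G (Eq : Bool → Bool → Prop)) x y) : False := by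
  let _ : TopologicalSpace G := ⊥
  have : DiscreteTopology G := ⟨rfl⟩
  let _ : MeasurableSpace (H → G → Bool) := borel _
  have : BorelSpace (H → G → Bool) := ⟨rfl⟩
  let _ : MeasurableSpace T := borel _
  have : BorelSpace T := ⟨rfl⟩
  let _ : MeasurableSpace (H → G) := borel _
  have : BorelSpace (H → G) := ⟨rfl⟩
  have hf' : Measurable f := hf
  -- the comeager set of continuity
  obtain ⟨𝓑, hBc, hBe, hB⟩ := TopologicalSpace.exists_countable_basis T
  have hU : ∀ b : Set T, ∃ U : Set (H → G → Bool), IsOpen U ∧
      (b ∈ 𝓑 → f ⁻¹' b =ᵇ U) := by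
    intro b
    by_cases hb : b ∈ 𝓑
    · obtain ⟨U, hU1, hU2⟩ := (hf' (hB.isOpen hb).measurableSet).residualEq_isOpen
      exact ⟨U, hU1, fun _ => hU2⟩
    · exact ⟨∅, isOpen_empty, fun h => absurd h hb⟩
  choose U hUo hUe using hU
  have hC : ∀ᶠ x in residual (H → G → Bool), ∀ b ∈ 𝓑, (f x ∈ b ↔ x ∈ U b) := by
    refine (eventually_countable_ball hBc).2 fun b hb => ?_
    have h3 := hUe b hb
    filter_upwards [h3] with x hx
    exact iff_of_eq hx
  set C : Set (H → G → Bool) := {x | ∀ b ∈ 𝓑, (f x ∈ b ↔ x ∈ U b)} with hCdef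
  -- countable dense set of sequences
  obtain ⟨D, hDc, hDd⟩ := TopologicalSpace.exists_countable_dense (H → G)
  -- generic points
  have g1 : ∀ᶠ x in residual (H → G → Bool), ∀ F : Finset H, ∀ δ ∈ D,
      ∀ᶠ γ in residual (H → G), act (mix F δ γ) x ∈ C := by
    refine eventually_countable_forall.2 fun F => (eventually_countable_ball hDc).2 fun δ _ => ?_
    refine ku (fun p : (H → G → Bool) × (H → G) => act (mix F δ p.2) p.1) ?_ ?_ hC
    · exact continuous_act (continuous_mix F continuous_const continuous_snd) continuous_fst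
    · rintro ⟨x, γ⟩
      refine ⟨fun w => (act (fun h => (mix F δ γ h)⁻¹) w, γ), ?_, ?_, ?_⟩
      · exact ((continuous_act continuous_const continuous_id).prodMk
          continuous_const).continuousAt
      · simp only [act_inv]
      · exact Eventually.of_forall fun w => act_inv' _ _
  have g2 : ∀ᶠ x in residual (H → G → Bool), ∀ F : Finset H, ∀ δ ∈ D,
      ∀ᶠ z in residual (H → G → Bool), mix F (act δ x) z ∈ C := by
    refine eventually_countable_forall.2 fun F => (eventually_countable_ball hDc).2 fun δ _ => ?_
    refine ku (fun p : (H → G → Bool) × (H → G → Bool) => mix F (act δ p.1) p.2) ?_ ?_ hC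
    · exact continuous_mix F (continuous_act continuous_const continuous_fst) continuous_snd
    · rintro ⟨x, z⟩
      refine ⟨fun w => (act (fun h => (δ h)⁻¹) (mix F w (act δ x)), mix F z w), ?_, ?_, ?_⟩
      · exact ((continuous_act continuous_const (continuous_mix F continuous_id
          continuous_const)).prodMk (continuous_mix F continuous_const
          continuous_id)).continuousAt
      · have e1 : mix F (mix F (act δ x) z) (act δ x) = act δ x := by
          funext h
          by_cases hh : h ∈ F
          · rw [mix_mem hh, mix_mem hh]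
          · rw [mix_notMem hh]
        have e2 : mix F z (mix F (act δ x) z) = z := by
          funext h
          by_cases hh : h ∈ F
          · rw [mix_mem hh]
          · rw [mix_notMem hh, mix_notMem hh]
        simp only [e1, e2, act_inv]
      · refine Eventually.of_forall fun w => ?_
        simp only [act_inv']
        funext h
        by_cases hh : h ∈ F
        · rw [mix_mem hh, mix_mem hh]
        · rw [mix_notMem hh, mix_notMem hh]
  have g3 : ∀ᶠ x in residual (H → G → Bool), ∀ h : H, ∀ V : Set (G → Bool), IsOpen V →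
      V.Nonempty → ∃ g : G, sh g (x h) ∈ V := by
    refine eventually_countable_forall.2 fun h => ?_
    have ht : Tendsto (fun x : H → G → Bool => x h) (residual _) (residual _) :=
      tendsto_residual_of_isOpenMap (continuous_apply h) (isOpenMap_eval h)
    exact ht.eventually dense_orbit
  obtain ⟨x, hx1, hx2, hx3⟩ := (dense_of_mem_residual (g1.and (g2.and g3))).nonempty
  -- a nonmeager piece
  obtain ⟨c, F, δ, hδ, hc⟩ : ∃ (c : T) (F : Finset H) (δ : H → G), δ ∈ D ∧
      ∀ᶠ γ in residual (H → G), f (act (mix F δ γ) x) = c := by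
    have hcont : Continuous fun γ : H → G => act γ x :=
      continuous_act continuous_id continuous_const
    have e1 : (⋃ q ∈ Q x, {γ : H → G | f (act γ x) = q}) = univ := by
      refine eq_univ_of_forall fun γ => ?_
      rw [mem_iUnion₂]
      exact ⟨_, h1 x γ, rfl⟩
    have e2 : ¬ IsMeagre (⋃ q ∈ Q x, {γ : H → G | f (act γ x) = q}) := by
      rw [e1]
      exact not_isMeagre_of_isOpen isOpen_univ univ_nonempty
    obtain ⟨c, -, hc⟩ := exists_of_not_isMeagre_biUnion (hQ x) e2
    have e3 : MeasurableSet {γ : H → G | f (act γ x) = c} :=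
      (hf'.comp hcont.measurable) (isClosed_singleton (x := c)).measurableSet
    obtain ⟨O, hO, hOe⟩ := e3.residualEq_isOpen
    have e4 : O.Nonempty := by
      by_contra hne
      rw [not_nonempty_iff_eq_empty] at hne
      apply hc
      rw [hne] at hOe
      unfold IsMeagre
      filter_upwards [hOe] with γ hγ
      intro h
      have : γ ∈ (∅ : Set (H → G)) := (iff_of_eq hγ).1 h
      exact this
    obtain ⟨γ₀, hγ₀⟩ := e4
    obtain ⟨F, u, hu, hFu⟩ := isOpen_pi_iff.1 hO γ₀ hγ₀
    obtain ⟨δ, hδ1, hδ2⟩ := hDd.inter_open_nonempty {γ | ∀ h ∈ F, γ h = γ₀ h} (by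
        have : {γ : H → G | ∀ h ∈ F, γ h = γ₀ h} = ⋂ h ∈ F, (fun γ : H → G => γ h) ⁻¹' {γ₀ h} := by
          ext γ
          simp
        rw [this]
        exact isOpen_biInter_finset fun h _ => (isOpen_discrete _).preimage (continuous_apply h))
        ⟨γ₀, fun h _ => rfl⟩
    refine ⟨c, F, δ, hδ2, ?_⟩
    have e5 : ∀ᶠ γ in residual (H → G), (f (act (mix F δ γ) x) = c ↔ mix F δ γ ∈ O) := by
      have e6 : {γ : H → G | f (act γ x) = c ↔ γ ∈ O} ∈ residual (H → G) := by
        filter_upwards [hOe] with γ hγ
        exact iff_of_eq hγ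
      refine residual_preimage (fun γ : H → G => mix F δ γ)
        (continuous_mix F continuous_const continuous_id) ?_ e6
      intro γ
      refine ⟨fun w => mix F γ w,
        (continuous_mix F continuous_const continuous_id).continuousAt, ?_, ?_⟩
      · funext h
        change mix F γ (mix F δ γ) h = γ h
        by_cases hh : h ∈ F
        · rw [mix_mem hh]
        · rw [mix_notMem hh, mix_notMem hh]
      · have e7 : {w : H → G | ∀ h ∈ F, w h = δ h} ∈ 𝓝 (mix F δ γ) := by
          have : {w : H → G | ∀ h ∈ F, w h = δ h} = ⋂ h ∈ F, (fun γ : H → G => γ h) ⁻¹' {δ h} := by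
            ext γ
            simp
          rw [this]
          refine (isOpen_biInter_finset fun h _ =>
            (isOpen_discrete _).preimage (continuous_apply h)).mem_nhds ?_
          rw [mem_iInter₂]
          intro h hh
          rw [mem_preimage, mix_mem hh]
          exact mem_singleton _
        filter_upwards [e7] with w hw
        funext h
        by_cases hh : h ∈ F
        · rw [mix_mem hh, hw h hh]
        · rw [mix_notMem hh, mix_notMem hh]
    filter_upwards [e5] with γ hγ
    rw [hγ]
    apply hFu
    intro h hh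
    rw [mix_mem (show h ∈ F from hh), hδ1 h hh]
    exact (hu h hh).2
  -- `f` is constant on a comeager subset of the slice
  have k1 : ∀ᶠ z in residual (H → G → Bool), f (mix F (act δ x) z) = c := by
    filter_upwards [hx2 F δ hδ] with z hz
    by_contra hne
    obtain ⟨b, hb, hzb, hbc⟩ := hB.exists_subset_of_mem_open
      (show f (mix F (act δ x) z) ∈ ({c}ᶜ : Set T) from hne) isOpen_compl_singleton
    have hzU : mix F (act δ x) z ∈ U b := (hz b hb).1 hzb
    have hcont : Continuous fun γ : H → G => act (mix F δ γ) x :=
      continuous_act (continuous_mix F continuous_const continuous_id) continuous_const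
    have hopen : IsOpen {γ : H → G | act (mix F δ γ) x ∈ U b} := (hUo b).preimage hcont
    have hnon : {γ : H → G | act (mix F δ γ) x ∈ U b}.Nonempty := by
      obtain ⟨P, u, hu, hPu⟩ := isOpen_pi_iff.1 (hUo b) _ hzU
      have : ∀ h : H, ∃ g : G, h ∈ P → h ∉ F → sh g (x h) ∈ u h := by
        intro h
        by_cases hh : h ∈ P
        · obtain ⟨g, hg⟩ := hx3 h (u h) (hu h hh).1 ⟨_, (hu h hh).2⟩
          exact ⟨g, fun _ _ => hg⟩
        · exact ⟨1, fun h' => absurd h' hh⟩
      choose γ hγ using this
      refine ⟨γ, hPu ?_⟩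
      intro h hh
      by_cases hF : h ∈ F
      · have := (hu h hh).2
        rw [mix_mem hF] at this
        change sh (mix F δ γ h) (x h) ∈ u h
        rw [mix_mem hF]
        exact this
      · change sh (mix F δ γ h) (x h) ∈ u h
        rw [mix_notMem hF]
        exact hγ h hh hF
    obtain ⟨γ, hγ1, hγ2, hγ3⟩ := (dense_of_mem_residual
      (inter_mem (hx1 F δ hδ) hc)).inter_open_nonempty _ hopen hnon
    have hγ4 : f (act (mix F δ γ) x) ∈ b := (hγ2 b hb).2 hγ1
    have hγ5 : f (act (mix F δ γ) x) = c := hγ3
    rw [hγ5] at hγ4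
    exact hbc hγ4 rfl
  -- contradiction
  obtain ⟨z₀, hz₀⟩ := (dense_of_mem_residual k1).nonempty
  obtain ⟨h₁, hh₁⟩ := Infinite.exists_notMem_finset F
  set w₀ := mix F (act δ x) z₀ with hw₀
  have k2 : ∀ᶠ z in residual (H → G → Bool), ∀ p : H × G, z h₁ ≠ sh p.2 (w₀ (p.1⁻¹ * h₁)) := by
    refine eventually_countable_forall.2 fun p => ?_
    have ht : Tendsto (fun x : H → G → Bool => x h₁) (residual _) (residual _) :=
      tendsto_residual_of_isOpenMap (continuous_apply h₁) (isOpenMap_eval h₁)
    exact ht.eventually (ne_residual (sh p.2 (w₀ (p.1⁻¹ * h₁))))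
  obtain ⟨z, hz1, hz2⟩ := (dense_of_mem_residual (k1.and k2)).nonempty
  obtain ⟨h, hh⟩ := h2 w₀ _ (hz₀.trans hz1.symm)
  obtain ⟨g, hg⟩ := hh h₁
  apply hz2 (h, g)
  funext g'
  have h3 := hg g'
  rw [mix_notMem hh₁] at h3
  exact h3.symm

end main

/-- **Main result.** Let `G` and `H` be infinite countable groups, `K` a countable group and `X` a
Polish space with at least two points. For the equality `E` on `X`, the relation `(E^[G])^[H]` is not
Borel reducible to `E^[K]`. -/
theorem result {X : Type u} [TopologicalSpace X] [PolishSpace X] [Nontrivial X]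
    {G : Type v} {H : Type w} {K : Type z} [Group G] [Group H] [Group K]
    [Countable G] [Infinite G] [Countable H] [Infinite H] [Countable K] :
    ¬ BorelRed (Jump H (Jump G (Eq : X → X → Prop))) (Jump K (Eq : X → X → Prop)) := by
  rintro ⟨f, hf, hred⟩
  obtain ⟨a, b, hab⟩ := exists_pair_ne X
  let ι : Bool → X := fun i => if i then a else b
  have hι : Function.Injective ι := by
    intro i j h
    cases i <;> cases j
    · rfl
    · exact absurd h.symm (by simpa [ι] using hab)
    · exact absurd h (by simpa [ι] using hab)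
    · rfl
  let e : (H → G → Bool) → (H → G → X) := fun x h g => ι (x h g)
  have he : Continuous e := by
    refine continuous_pi fun h => continuous_pi fun g => ?_
    have h1 : Continuous fun x : H → G → Bool => x h g :=
      (continuous_apply g).comp (continuous_apply h)
    exact (continuous_of_discreteTopology (f := ι)).comp h1
  have hfe : @Measurable _ _ (borel _) (borel _) (f ∘ e) := by
    let _ : MeasurableSpace (H → G → Bool) := borel _
    have : BorelSpace (H → G → Bool) := ⟨rfl⟩
    let _ : MeasurableSpace (H → G → X) := borel _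
    have : BorelSpace (H → G → X) := ⟨rfl⟩
    let _ : MeasurableSpace (K → X) := borel _
    exact Measurable.comp (g := f) hf he.measurable
  refine core (T := K → X) (f ∘ e) hfe (fun x => range fun k : K => sh k (f (e x)))
    (fun x => countable_range _) ?_ ?_
  · intro x γ
    have h1 : Jump H (Jump G (Eq : X → X → Prop)) (e x) (e (act γ x)) := by
      refine ⟨1, fun h => ⟨γ h, fun g => ?_⟩⟩
      simp [e, act, sh]
    obtain ⟨k, hk⟩ := (hred _ _).1 h1
    exact ⟨k, funext hk⟩
  · intro x y hxy
    have h1 : Jump K (Eq : X → X → Prop) (f (e x)) (f (e y)) := by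
      refine ⟨1, fun k => ?_⟩
      have : f (e x) = f (e y) := hxy
      rw [this]
      simp
    obtain ⟨h, hh⟩ := (hred _ _).2 h1
    refine ⟨h, fun h' => ?_⟩
    obtain ⟨g, hg⟩ := hh h'
    exact ⟨g, fun g' => hι (hg g')⟩

end Pool.Agent.Results.MP_9b97c3_lc.IteratedJump
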